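import Mathlib
import Pool.Agent.Lib.MP_87d05f_lc.TH.Defs

set_option autoImplicit false

/-!
# DICHOTOMY on locally tree-like instances of bounded degree: definitions (helper60)

A language `φ` is replaced by the language `phX φ` with finitely many symbols: every symbol of `φ`
with its arguments identified in all possible ways, and two symbols without arguments with the
payoffs `0` and `1`.  An instance of `φ` with a threshold becomes an instance of `phX φ` in which no
constraint contains a variable twice (`fwI`), with the constant threshold `1 / d ^ k` for the average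
payoff; and back (`bwI`).
-/

namespace Pool.Agent.Lib.MP_87d05f_lc.DG

open Pool.Agent.Lib.MP_87d05f_lc Pool.Agent.Lib.MP_87d05f_lc.HG Pool.Agent.Lib.MP_87d05f_lc.TH
open Pool.Agent.Lib.MP_87d05f_lc.SP

variable {g d : ℕ} {ar : Fin g → ℕ}

/-- the new symbols -/
abbrev Sy (ar : Fin g → ℕ) : Type :=
  ((i : Fin g) × (r : Fin (ar i + 1)) × (Fin (ar i) → Fin (r : ℕ))) ⊕ Bool

/-- the arities of the new symbols -/
def arS : Sy ar → ℕ
  | Sum.inl s => (s.2.1 : ℕ)
  | Sum.inr _ => 0

/-- the payoffs of the new symbols -/
def phS (φ : (i : Fin g) → (Fin (ar i) → Fin d) → ℕ) : (s : Sy ar) → (Fin (arS s) → Fin d) → ℕ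
  | Sum.inl s, x => φ s.1 (fun j => x (s.2.2 j))
  | Sum.inr b, _ => b.toNat

/-- the number of the new symbols -/
def nS (ar : Fin g → ℕ) : ℕ := Fintype.card (Sy ar)

/-- the new symbols are numbered -/
noncomputable def eS (ar : Fin g → ℕ) : Sy ar ≃ Fin (nS ar) := Fintype.equivFin _

/-- the arities -/
noncomputable def arX (ar : Fin g → ℕ) : Fin (nS ar) → ℕ := fun s => arS ((eS ar).symm s)

/-- the payoffs -/
noncomputable def phX (φ : (i : Fin g) → (Fin (ar i) → Fin d) → ℕ) :
    (s : Fin (nS ar)) → (Fin (arX ar s) → Fin d) → ℕ := fun s x => phS φ ((eS ar).symm s) x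

theorem length_ded_le {α : Type} [DecidableEq α] (l : List α) : (ded l).length ≤ l.length := by
  rw [ded_length]
  exact List.toFinset_card_le l

/-- a constraint as a constraint with different variables -/
noncomputable def fwC (c : Con ar) : Con (arX ar) :=
  ⟨eS ar (Sum.inl ⟨c.1, ⟨(ded (List.ofFn c.2)).length, by
      have h := length_ded_le (List.ofFn c.2)
      rw [List.length_ofFn] at h
      omega⟩,
    fun j => ⟨(ded (List.ofFn c.2)).idxOf (c.2 j), by
      have h : c.2 j ∈ ded (List.ofFn c.2) := by
        rw [mem_ded]
        exact List.mem_ofFn.2 ⟨j, rfl⟩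
      exact List.idxOf_lt_length_of_mem h⟩⟩),
    fun j => (ded (List.ofFn c.2)).getD (j : ℕ) 0⟩

/-- a constraint without variables -/
noncomputable def cst (b : Bool) : Con (arX ar) := ⟨eS ar (Sum.inr b), fun _ => 0⟩

/-- an instance with a threshold as an instance of the new language -/
noncomputable def fwI (φ : (i : Fin g) → (Fin (ar i) → Fin d) → ℕ) (k : ℕ)
    (I : ℕ × List (Con ar)) : List (Con (arX ar)) :=
  if I.1 = 0 then [cst true] else
    (usC φ I.2).map fwC ++ List.replicate (I.1 * d ^ k - (usC φ I.2).length) (cst false)

/-- a constraint of the new language as a constraint of the old one -/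
def bwS : (s : Sy ar) → (Fin (arS s) → ℕ) → Option (Con ar)
  | Sum.inl s, y => some ⟨s.1, fun j => y (s.2.2 j)⟩
  | Sum.inr _, _ => none

/-- a constraint of the new language as a constraint of the old one -/
noncomputable def bwC (q : Con (arX ar)) : Option (Con ar) := bwS ((eS ar).symm q.1) q.2

/-- the payoff of a constraint without variables -/
def oneS : Sy ar → ℕ
  | Sum.inl _ => 0
  | Sum.inr b => b.toNat

/-- the number of constraints without variables and with payoff `1` -/
noncomputable def ones (F : List (Con (arX ar))) : ℕ :=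
  (F.map (fun q => oneS ((eS ar).symm q.1))).sum

/-- an instance of the new language as an instance of the old one with a threshold -/
noncomputable def bwI (c : ℚ) (F : List (Con (arX ar))) : ℕ × List (Con ar) :=
  ((⌈c * (F.length : ℚ)⌉).toNat - ones F, F.filterMap bwC)

/-- every variable occurs at most `K` times and the incidence graph has girth more than `gg`
(a constraint may contain a variable several times) -/
def Loc (K gg : ℕ) (F : List (Con ar)) : Prop :=
  occK K F ∧ (gg : ℕ∞) < (incG (vsC (ar := ar) (V := ℕ)) F).egirth

/-- the trivial relations -/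
def R1 (d : ℕ) (ar : Fin g → ℕ) : (i : Fin g) → (Fin (ar i) → Fin d) → Bool := fun _ _ => true

end Pool.Agent.Lib.MP_87d05f_lc.DG
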