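import Mathlib
import Pool.Agent.Lib.MP_87d05f_lc.DG.Defs
import Pool.Agent.Lib.MP_87d05f_lc.TH.Stm

set_option autoImplicit false

/-!
# DICHOTOMY on locally tree-like instances of bounded degree: statements (helper60)

Aim (`S_DG`): if the maximum value of the instances of a language `φ` cannot be approximated in time
`2 ^ (n / b)` (all instances), then for some `ε'`, `K`, for every `gg`, for some `b'`, it cannot be
approximated within `1 - ε'` in time `2 ^ (m / b')` on the instances in which every variable occurs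
at most `K` times and whose incidence graph has girth more than `gg`.  It follows from
`TH.S_TH` for the language `phX φ`.

Pieces go to `DG/P/<name>.lean`, namespace `Pool.Agent.Lib.MP_87d05f_lc.DG`, theorem `p_<name>`, with
the statements a piece uses as hypotheses in the given order.
-/

namespace Pool.Agent.Lib.MP_87d05f_lc.DG

open Pool.Agent.Lib.MP_87d05f_lc Pool.Agent.Lib.MP_87d05f_lc.HG Pool.Agent.Lib.MP_87d05f_lc.TH
open Pool.Agent.Lib.MP_87d05f_lc.SP Pool.Agent.PolyTime

/-- [DG FW] the new constraints.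

Proof.  With `L = ded (List.ofFn c.2)`: `vsC (fwC c) = L` (the arity is `L.length`; rewrite
`(eS ar).symm (eS ar s) = s`: first show for every `s' = s` that
`List.ofFn (fun j : Fin (arS s') => L.getD j 0) = ...` and
`phS φ s' (fun j => f (j : ℕ)) = phS φ s (fun j => f (j : ℕ))`, by `subst`), `L.Nodup` (`Parse.lean`),
the members of `L` are the variables of `c` (`mem_ded`), and
`L.getD (L.idxOf (c.2 j)) 0 = c.2 j`. -/
def S_FW : Prop := ∀ (g d : ℕ) (ar : Fin g → ℕ) (φ : (i : Fin g) → (Fin (ar i) → Fin d) → ℕ),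
  (∀ c : Con ar, (vsC (fwC c)).Nodup ∧ (∀ v, v ∈ vsC (fwC c) ↔ v ∈ vsC c) ∧
    ∀ a : ℕ → Fin d, phX φ (fwC c).1 (fun j => a ((fwC c).2 j)) = φ c.1 (fun j => a (c.2 j))) ∧
  (∀ b : Bool, vsC (cst (ar := ar) b) = [] ∧
    ∀ a : ℕ → Fin d, phX φ (cst (ar := ar) b).1 (fun j => a ((cst (ar := ar) b).2 j)) = b.toNat)

/-- [DG FI] (uses FW) the forward reduction: semantics.

Proof.  `t = 0`: the instance is one constraint with payoff `1`, a YES instance (`1 / d ^ k ≤ 1`); no
NO instance has `t = 0`.  `t > 0`: let `u` be the number of the useful constraints, `m'` the length of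
`fwI`, `m' = max u (t * d ^ k) > 0`.  All values of `F`, of the useful part, and of `fwI` are equal.
Averaging: some assignment has value at least `u / d ^ k` (each useful constraint has payoff at least
`1` for one of the at most `d ^ k` assignments of its variables; see `nth` in `SP/P/nth.lean`, which
contains this averaging argument, or `exists_average` in `Average.lean`).  YES: if `m' = t * d ^ k`
the value is at least `t = m' / d ^ k`; if `m' = u` use the averaging assignment.  NO: `u / d ^ k ≤`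
some value `< (1 - ε) t`, so `m' = t * d ^ k`, and all values are less than
`(1 - ε) t = (1 - ε) / d ^ k * m'`. -/
def S_FI : Prop := ∀ (g d : ℕ) (ar : Fin g → ℕ) (φ : (i : Fin g) → (Fin (ar i) → Fin d) → ℕ)
  (k : ℕ) (ε : ℚ) (I : ℕ × List (Con ar)), 0 < d → (∀ i, ar i ≤ k) → 0 < ε → ε < 1 →
  fwI φ k I ≠ [] ∧ Prp (fwI φ k I) ∧ nvC (fwI φ k I) ≤ nvC I.2 ∧
  (YM φ I → YT (phX φ) (R1 d (arX ar)) (1 / (d : ℚ) ^ k) (fwI φ k I)) ∧
  (NM φ ε I → NT (phX φ) ((1 - ε) / (d : ℚ) ^ k) (fwI φ k I))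

/-- [DG FP] the forward reduction is computed in polynomial time.

Proof.  `parseW` of `enM I` is `[replicate t true] :: F.map wordC`; `usC φ F` is a filter by a
polynomial-time test on words (`usm_usC`, `useful_ptime`, see `SP/P/usm.lean`); `fwC` on words: with
`L = ded c.tail` (`ded` commutes with the injective map `Nat.bits`), look up the word of the new symbol
in a finite table with the keys `(c.headD [], c.tail.map (fun w => L.idxOf w))` (the position of `w`
in `L` by `find?` on `L.zipIdx`), output this word followed by `L`; `cst b` has the constant word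
`[Nat.bits (eS ar (Sum.inr b))]`; `d ^ k` is a constant; `PTime.replicate`. -/
def S_FP : Prop := ∀ (g d : ℕ) (ar : Fin g → ℕ) (φ : (i : Fin g) → (Fin (ar i) → Fin d) → ℕ)
  (k : ℕ), 0 < d → ∃ f : List Bool → List (List (List Bool)), PTime f ∧
  ∀ I : ℕ × List (Con ar), f (enM I) = (fwI φ k I).map wordC

/-- [DG FT] (uses FI, FP) the forward reduction: machines.  (`transfer` of `Transfer.lean` with
`fun x => encW (f x)`, `h x = nvC / b` (`nvC_eq`, `mydiv_eq`), `codeC_eq`.) -/
def S_FT : Prop := ∀ (g d : ℕ) (ar : Fin g → ℕ) (φ : (i : Fin g) → (Fin (ar i) → Fin d) → ℕ)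
  (k : ℕ) (ε : ℚ) (b : ℕ), 0 < d → (∀ i, ar i ≤ k) → 0 < ε → ε < 1 → 0 < b →
  GSep (codeC (ar := arX ar)) (fun F => F ≠ [] ∧ Prp F)
    (YT (phX φ) (R1 d (arX ar)) (1 / (d : ℚ) ^ k)) (NT (phX φ) ((1 - ε) / (d : ℚ) ^ k)) nvC b →
  GSep (enM (ar := ar)) (fun _ => True) (YM φ) (NM φ ε) (fun I => nvC I.2) b

/-- [DG BI] the backward reduction: semantics.

Proof.  For every `a` the value of `F` (for `phX φ`) is the value of `F.filterMap bwC` (for `φ`) plus
`ones F` (case distinction on `(eS ar).symm q.1`).  YES: the value of `F` is an integer `≥ c m`.  NO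
(`c > 0`): for all `a`, `ones F ≤` the value of `F` `< s m ≤ (1 - ε) c m ≤ (1 - ε) ⌈c m⌉`, so the
subtraction is exact, and the value of `F.filterMap bwC` is less than
`(1 - ε) ⌈c m⌉ - ones F ≤ (1 - ε) (⌈c m⌉ - ones F)`.  Occurrences: a variable occurs at most `ar i ≤ k`
times in `⟨i, y ∘ σ⟩`, and only if it is a value of `y`.  Girth: the incidence graph of
`F.filterMap bwC` is mapped injectively to that of `F` (the positions of the constraints that are kept
increase strictly: prove by induction on `F` that there is a strictly monotone `p : ℕ → ℕ` with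
`(F.filterMap bwC)[q]? = some c → ∃ c', F[p q]? = some c' ∧ bwC c' = some c`); an injective homomorphism
does not increase the girth (`SimpleGraph.Walk.IsCycle.map`, or Mathlib's lemmas on `egirth`). -/
def S_BI : Prop := ∀ (g d : ℕ) (ar : Fin g → ℕ) (φ : (i : Fin g) → (Fin (ar i) → Fin d) → ℕ)
  (k K gg : ℕ) (c s ε : ℚ) (F : List (Con (arX ar))), 0 < d → (∀ i, ar i ≤ k) → 0 < c → 0 < ε →
  ε < 1 → s ≤ (1 - ε) * c →
  (YT (phX φ) (R1 d (arX ar)) c F → YM φ (bwI c F)) ∧
  (NT (phX φ) s F → NM φ ε (bwI c F)) ∧ (bwI c F).2.length ≤ F.length ∧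
  (occK K F → occK (k * K) (bwI c F).2) ∧
  ((gg : ℕ∞) < (incG (vsC (ar := arX ar) (V := ℕ)) F).egirth →
    (gg : ℕ∞) < (incG (vsC (ar := ar) (V := ℕ)) (bwI c F).2).egirth)

/-- [DG BP] the backward reduction is computed in polynomial time.

Proof.  `c = p / q` with natural numbers, `⌈c m⌉ = (p m + q - 1) / q` (`mydiv`).  The words of the
symbols are looked up in a finite table which gives, for `inl ⟨i, r, σ⟩`, the word of `i` and the list
`σ` of positions, for `inr b` the payoff; output `[replicate t true] ::` the words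
`bits i :: σ.map (fun j => c.tail.getD j [])`. -/
def S_BP : Prop := ∀ (g : ℕ) (ar : Fin g → ℕ) (c : ℚ), 0 < c →
  ∃ f : List Bool → List Bool, PTime f ∧
    ∀ F : List (Con (arX ar)), f (codeC F) = enM (bwI c F)

/-- [DG BT] (uses BI, BP) the backward reduction: machines.  (`transfer` with the function of [BP],
`h x = mydiv (parseW x).length b`.) -/
def S_BT : Prop := ∀ (g d : ℕ) (ar : Fin g → ℕ) (φ : (i : Fin g) → (Fin (ar i) → Fin d) → ℕ)
  (k K gg b : ℕ) (c s ε : ℚ), 0 < d → (∀ i, ar i ≤ k) → 0 < c → 0 < ε → ε < 1 →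
  s ≤ (1 - ε) * c → 0 < b →
  GSep (enM (ar := ar)) (fun I => Loc (k * K) gg I.2) (YM φ) (NM φ ε) (fun I => I.2.length) b →
  GSep (codeC (ar := arX ar)) (fun F => VK K F ∧ HGI (vsC (ar := arX ar) (V := ℕ)) gg F)
    (YT (phX φ) (R1 d (arX ar)) c) (NT (phX φ) s) List.length b

/-- [DG DG] (uses TH.S_TH, FT, BT) THE LOCAL VERSION.  (`k = ∑ ar`, `c₀ = 1 / d ^ k`,
`s₀ = (1 - ε) c₀`, `η = ε c₀ / 4`, `c = c₀ - η`, `s = s₀ + η ≤ (1 - ε / 2) c`, `ε' = ε / 2`.) -/
def S_DG : Prop := ∀ (g d : ℕ) (ar : Fin g → ℕ) (φ : (i : Fin g) → (Fin (ar i) → Fin d) → ℕ),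
  0 < d →
  (∃ ε : ℚ, 0 < ε ∧ ε < 1 ∧ ∃ b : ℕ, 0 < b ∧
    ¬ GSep (enM (ar := ar)) (fun _ => True) (YM φ) (NM φ ε) (fun I => nvC I.2) b) →
  ∃ ε : ℚ, 0 < ε ∧ ε < 1 ∧ ∃ K : ℕ, ∀ gg : ℕ, ∃ b : ℕ, 0 < b ∧
    ¬ GSep (enM (ar := ar)) (fun I => Loc K gg I.2) (YM φ) (NM φ ε) (fun I => I.2.length) b

/-- [DG SF] separators from search, on a class of instances (`sep_of_find_max` of `SP/Val.lean` with
a class; the same proof). -/
def S_SF : Prop := ∀ (g d : ℕ) (ar : Fin g → ℕ) (φ : (i : Fin g) → (Fin (ar i) → Fin d) → ℕ)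
  (V : List (Con ar) → Prop) (p q b : ℕ), 0 < p → p < q → 0 < b →
  GFind (codeC (ar := ar)) V (goodMax φ ((p : ℚ) / (q : ℕ))) List.length b →
  GSep (enM (ar := ar)) (fun I => V I.2) (YM φ) (NM φ ((p : ℚ) / (q : ℕ)))
    (fun I => I.2.length) b

end Pool.Agent.Lib.MP_87d05f_lc.DG
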