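import Mathlib
import Pool.Agent.Lib.MP_87d05f_lc.DG.P.DG
import Pool.Agent.Lib.MP_87d05f_lc.DG.P.SF
import Pool.Agent.Lib.MP_87d05f_lc.DG.P.FW
import Pool.Agent.Lib.MP_87d05f_lc.DG.P.FI
import Pool.Agent.Lib.MP_87d05f_lc.DG.P.FP
import Pool.Agent.Lib.MP_87d05f_lc.DG.P.FT
import Pool.Agent.Lib.MP_87d05f_lc.DG.P.BI
import Pool.Agent.Lib.MP_87d05f_lc.DG.P.BP
import Pool.Agent.Lib.MP_87d05f_lc.DG.P.BT
import Pool.Agent.Lib.MP_87d05f_lc.TH.Main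

set_option autoImplicit false

/-!
# Putting the pieces together
-/

namespace Pool.Agent.Lib.MP_87d05f_lc.DG

open Pool.Agent.Lib.MP_87d05f_lc Pool.Agent.Lib.MP_87d05f_lc.TH

theorem dg : S_DG := p_DG TH.m_TH (p_FT (p_FI p_FW) p_FP) (p_BT p_BI p_BP)

end Pool.Agent.Lib.MP_87d05f_lc.DG
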